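import Mathlib

/-!
# Modified EGZ constants of `(ℤ/n)^d`: the bound fails for all odd `n ≥ 3` and all `d ≥ 3`

For `t = 1` the bound of Q1 is `s'_n((ℤ/n)^d) ≤ 2^d n - ℓ + 1`.  We show that it fails for every odd
`n ≥ 3` and every `d ≥ 3`.

Proof.  Let `P` be the set of the nine integer vectors `(0,0,0)`, `(0,0,1)`, `(0,1,0)`, `(0,1,1)`,
`(1,0,0)`, `(1,0,1)`, `(1,1,2)`, `(1,2,2)`, `(2,1,2)`.  If `n` is odd and every vector of
`P × {0,1}^(d-3)` is repeated `n - 1` times, then no `n` of the terms have sum zero modulo `n`.  This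
sequence has `9 · 2^(d-3) (n - 1)` terms.  A subsequence whose length `L` is `1` or `-1` modulo `n`
can be translated so that its sum is zero, and `L` can be chosen with
`2^d (n - 1) + 1 ≤ L ≤ 9 · 2^(d-3) (n - 1)`.
-/

set_option autoImplicit false

namespace Pool.Agent.Results.MP_b34cfe_co.OddModuli

/-- The modified EGZ constant `s'_m(G)`: the least `L` such that every zero-sum sequence over `G`
of length at least `L` has a zero-sum subsequence of length exactly `m`. -/
noncomputable def sPrime (m : ℕ) (G : Type) [AddCommGroup G] : ℕ :=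
  sInf {L : ℕ | ∀ S : Multiset G, S.sum = 0 → L ≤ Multiset.card S →
    ∃ T ≤ S, Multiset.card T = m ∧ T.sum = 0}

/-- `ℓ(n,d)`: the least integer `l ≥ 2^d` that does not divide `n`. -/
noncomputable def ell (n d : ℕ) : ℕ := sInf {l : ℕ | 2 ^ d ≤ l ∧ ¬ l ∣ n}

lemma le_ell (n d : ℕ) (hn : 0 < n) : 2 ^ d ≤ ell n d := by
  have hne : {l : ℕ | 2 ^ d ≤ l ∧ ¬ l ∣ n}.Nonempty := by
    refine ⟨2 ^ d + n, Nat.le_add_right _ _, fun h => ?_⟩
    have h1 := Nat.le_of_dvd hn h
    have h2 : 0 < 2 ^ d := by positivity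
    omega
  exact (Nat.sInf_mem hne).1

/-- the first coordinate of the nine vectors -/
def px : Fin 9 → ℕ := ![0, 0, 0, 0, 1, 1, 1, 1, 2]
/-- the second coordinate of the nine vectors -/
def py : Fin 9 → ℕ := ![0, 0, 1, 1, 0, 0, 1, 2, 1]
/-- the third coordinate of the nine vectors -/
def pz : Fin 9 → ℕ := ![0, 1, 0, 1, 0, 1, 2, 2, 2]

/-- indices of the vectors of `P × {0,1}^e` -/
abbrev Idx (e : ℕ) : Type := Fin 9 × (Fin e → Fin 2)

/-- the vectors, with nonnegative integer coordinates -/
def vec (e : ℕ) (i : Idx e) : Fin (e + 3) → ℕ :=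
  fun j => if h : j.1 < e then (i.2 ⟨j.1, h⟩ : ℕ) else
    if j.1 = e then px i.1 else if j.1 = e + 1 then py i.1 else pz i.1

/-- the arithmetic core -/
lemma core (n c0 c1 c2 c3 c4 c5 c6 c7 c8 a b c : ℕ) (hn : n % 2 = 1) (_hn3 : 3 ≤ n)
    (hs : c0 + c1 + c2 + c3 + c4 + c5 + c6 + c7 + c8 = n)
    (hx : c4 + c5 + c6 + c7 + 2 * c8 = n * a)
    (hy : c2 + c3 + c6 + 2 * c7 + c8 = n * b)
    (hz : c1 + c3 + c5 + 2 * c6 + 2 * c7 + 2 * c8 = n * c) :
    c0 = n ∨ c1 = n ∨ c2 = n ∨ c3 = n ∨ c4 = n ∨ c5 = n ∨ c6 = n ∨ c7 = n ∨ c8 = n := by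
  have ha : a ≤ 2 := by
    by_contra h
    push Not at h
    have : n * 3 ≤ n * a := Nat.mul_le_mul_left n h
    omega
  have hb : b ≤ 2 := by
    by_contra h
    push Not at h
    have : n * 3 ≤ n * b := Nat.mul_le_mul_left n h
    omega
  have hc : c ≤ 2 := by
    by_contra h
    push Not at h
    have : n * 3 ≤ n * c := Nat.mul_le_mul_left n h
    omega
  interval_cases a <;> interval_cases b <;> interval_cases c <;> omega

lemma sum_class {e : ℕ} (g : Fin 9 → ℕ) (T : Multiset (Idx e)) :
    (T.map fun i => g i.1).sum = ∑ k, g k * Multiset.card (T.filter fun i => i.1 = k) := by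
  induction T using Multiset.induction_on with
  | empty => simp
  | cons a T ih =>
    rw [Multiset.map_cons, Multiset.sum_cons, ih]
    have h1 : ∀ k, Multiset.card ((a ::ₘ T).filter fun i => i.1 = k) =
        (if a.1 = k then 1 else 0) + Multiset.card (T.filter fun i => i.1 = k) := by
      intro k
      by_cases h : a.1 = k
      · rw [Multiset.filter_cons_of_pos (p := fun i : Idx e => i.1 = k) _ h, Multiset.card_cons,
          if_pos h]; ring
      · rw [Multiset.filter_cons_of_neg (p := fun i : Idx e => i.1 = k) _ h, if_neg h]; ring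
    simp only [h1, mul_add, Finset.sum_add_distrib]
    simp

lemma card_filter_eq {α : Type} [DecidableEq α] (T : Multiset α) (p : α → Prop) [DecidablePred p]
    (h : Multiset.card (T.filter p) = Multiset.card T) : ∀ i ∈ T, p i := by
  have h1 : T.filter p = T := Multiset.eq_of_le_of_card_le (Multiset.filter_le _ _) h.ge
  intro i hi
  rw [← h1] at hi
  exact (Multiset.mem_filter.1 hi).2

/-- a multiset of `n` indices whose vectors have sum zero modulo `n` is constant -/
lemma const_of_sum {n e : ℕ} (hn : n % 2 = 1) (hn3 : 3 ≤ n) (T : Multiset (Idx e))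
    (hT : Multiset.card T = n) (h0 : ∀ j, n ∣ (T.map fun i => vec e i j).sum) :
    ∀ i ∈ T, ∀ i' ∈ T, i = i' := by
  classical
  have hfirst : ∀ i ∈ T, ∀ i' ∈ T, i.1 = i'.1 := by
    have hx : n ∣ (T.map fun i => px i.1).sum := by
      have := h0 ⟨e, by omega⟩
      simpa [vec] using this
    have hy : n ∣ (T.map fun i => py i.1).sum := by
      have := h0 ⟨e + 1, by omega⟩
      simpa [vec] using this
    have hz : n ∣ (T.map fun i => pz i.1).sum := by
      have := h0 ⟨e + 2, by omega⟩
      simpa [vec] using this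
    have hs : ∑ k : Fin 9, 1 * Multiset.card (T.filter fun i => i.1 = k) = n := by
      rw [← sum_class (fun _ => 1) T]; simp [hT]
    rw [sum_class] at hx hy hz
    obtain ⟨a, ha⟩ := hx
    obtain ⟨b, hb⟩ := hy
    obtain ⟨c, hc⟩ := hz
    have key := core n
      (Multiset.card (T.filter fun i => i.1 = 0)) (Multiset.card (T.filter fun i => i.1 = 1))
      (Multiset.card (T.filter fun i => i.1 = 2)) (Multiset.card (T.filter fun i => i.1 = 3))
      (Multiset.card (T.filter fun i => i.1 = 4)) (Multiset.card (T.filter fun i => i.1 = 5))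
      (Multiset.card (T.filter fun i => i.1 = 6)) (Multiset.card (T.filter fun i => i.1 = 7))
      (Multiset.card (T.filter fun i => i.1 = 8)) a b c hn hn3
    have ex : ∀ g : Fin 9 → ℕ, ∑ k, g k * Multiset.card (T.filter fun i => i.1 = k) =
        g 0 * Multiset.card (T.filter fun i => i.1 = 0) +
        g 1 * Multiset.card (T.filter fun i => i.1 = 1) +
        g 2 * Multiset.card (T.filter fun i => i.1 = 2) +
        g 3 * Multiset.card (T.filter fun i => i.1 = 3) +
        g 4 * Multiset.card (T.filter fun i => i.1 = 4) +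
        g 5 * Multiset.card (T.filter fun i => i.1 = 5) +
        g 6 * Multiset.card (T.filter fun i => i.1 = 6) +
        g 7 * Multiset.card (T.filter fun i => i.1 = 7) +
        g 8 * Multiset.card (T.filter fun i => i.1 = 8) := by
      intro g
      rw [Fin.sum_univ_castSucc, Fin.sum_univ_eight]
      rfl
    have e1 := ex px
    have e2 := ex py
    have e3 := ex pz
    have e4 := ex (fun _ => 1)
    rw [ha] at e1
    rw [hb] at e2
    rw [hc] at e3
    rw [hs] at e4
    have q : ∃ k : Fin 9, Multiset.card (T.filter fun i => i.1 = k) = n := by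
      have := key (by omega) (by simp [px] at e1; omega) (by simp [py] at e2; omega)
        (by simp [pz] at e3; omega)
      rcases this with h | h | h | h | h | h | h | h | h
      · exact ⟨_, h⟩
      · exact ⟨_, h⟩
      · exact ⟨_, h⟩
      · exact ⟨_, h⟩
      · exact ⟨_, h⟩
      · exact ⟨_, h⟩
      · exact ⟨_, h⟩
      · exact ⟨_, h⟩
      · exact ⟨_, h⟩
    obtain ⟨k, hk⟩ := q
    have h9 := card_filter_eq T (fun i => i.1 = k) (hk.trans hT.symm)
    intro i hi i' hi'
    rw [h9 i hi, h9 i' hi']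
  have hsecond : ∀ j : Fin e, ∀ i ∈ T, ∀ i' ∈ T, i.2 j = i'.2 j := by
    intro j
    have hj : n ∣ (T.map fun i => (i.2 j : ℕ)).sum := by
      have := h0 ⟨j, by omega⟩
      simpa [vec] using this
    have hcount : (T.map fun i => (i.2 j : ℕ)).sum = Multiset.card (T.filter fun i => i.2 j = 1) := by
      clear hj h0 hT hfirst
      induction T using Multiset.induction_on with
      | empty => simp
      | cons a T ih =>
        rw [Multiset.map_cons, Multiset.sum_cons, ih]
        by_cases h : a.2 j = 1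
        · rw [Multiset.filter_cons_of_pos (p := fun i : Idx e => i.2 j = 1) _ h,
            Multiset.card_cons, h]
          simp [add_comm]
        · rw [Multiset.filter_cons_of_neg (p := fun i : Idx e => i.2 j = 1) _ h]
          have : a.2 j = 0 := by omega
          rw [this]; simp
    rw [hcount] at hj
    have hle : Multiset.card (T.filter fun i => i.2 j = 1) ≤ n := by
      rw [← hT]; exact Multiset.card_le_card (Multiset.filter_le _ _)
    have h2 : Multiset.card (T.filter fun i => i.2 j = 1) = 0 ∨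
        Multiset.card (T.filter fun i => i.2 j = 1) = n := by
      obtain ⟨a, ha⟩ := hj
      rcases Nat.lt_or_ge a 2 with h | h
      · interval_cases a
        · left; simpa using ha
        · right; simpa using ha
      · have : n * 2 ≤ n * a := Nat.mul_le_mul_left n h
        omega
    rcases h2 with h2 | h2
    · have h3 : ∀ i ∈ T, i.2 j = 0 := by
        intro i hi
        by_contra hne
        have h4 : i ∈ T.filter fun i => i.2 j = 1 := Multiset.mem_filter.2 ⟨hi, by omega⟩
        rw [Multiset.card_eq_zero.1 h2] at h4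
        simp at h4
      intro i hi i' hi'
      rw [h3 i hi, h3 i' hi']
    · have h3 := card_filter_eq T (fun i => i.2 j = 1) (h2.trans hT.symm)
      intro i hi i' hi'
      rw [h3 i hi, h3 i' hi']
  intro i hi i' hi'
  exact Prod.ext (hfirst i hi i' hi') (funext fun j => hsecond j i hi i' hi')

/-- the vectors modulo `n` -/
def cvec (n e : ℕ) (i : Idx e) : Fin (e + 3) → ZMod n := fun j => (vec e i j : ZMod n)

lemma exists_of_le_map {α β : Type} (f : α → β) (S : Multiset α) (T : Multiset β)
    (h : T ≤ S.map f) : ∃ T' ≤ S, T = T'.map f := by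
  induction S using Quotient.inductionOn with
  | h s =>
    induction T using Quotient.inductionOn with
    | h t =>
      obtain ⟨l, hl, hs⟩ : List.Subperm t (s.map f) := h
      obtain ⟨l', hl', rfl⟩ := List.sublist_map_iff.1 hs
      refine ⟨(l' : Multiset α), Multiset.coe_le.2 hl'.subperm, ?_⟩
      exact (Multiset.coe_eq_coe.2 hl.symm)

/-- no zero-sum subsequence of length `n`, after translation by `x` -/
lemma no_zero_sum {n e : ℕ} (hn : n % 2 = 1) (hn3 : 3 ≤ n) (x : Fin (e + 3) → ZMod n)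
    (S : Multiset (Idx e)) (hS : ∀ i, S.count i ≤ n - 1)
    (T : Multiset (Fin (e + 3) → ZMod n)) (hT : T ≤ S.map fun i => cvec n e i + x)
    (hc : Multiset.card T = n) : T.sum ≠ 0 := by
  intro h0
  obtain ⟨T', hT', rfl⟩ : ∃ T' ≤ S, T = T'.map fun i => cvec n e i + x :=
    exists_of_le_map _ _ _ hT
  rw [Multiset.card_map] at hc
  have h1 : ∀ j, n ∣ (T'.map fun i => vec e i j).sum := by
    intro j
    have h2 := congrFun h0 j
    rw [Multiset.sum_map_add, Multiset.map_const', Multiset.sum_replicate, hc] at h2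
    have h3 : (T'.map (cvec n e)).sum j = ((T'.map fun i => vec e i j).sum : ℕ) := by
      clear h0 hc hT' h2 hT
      induction T' using Multiset.induction_on with
      | empty => simp
      | cons a T ih =>
        simp only [Multiset.map_cons, Multiset.sum_cons, Pi.add_apply, Nat.cast_add]
        rw [ih]
        rfl
    rw [Pi.add_apply, h3] at h2
    have h4 : (n • x) j = 0 := by simp
    rw [h4, add_zero] at h2
    exact (ZMod.natCast_eq_zero_iff _ _).1 h2
  have h5 := const_of_sum hn hn3 T' hc h1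
  have hpos : 0 < Multiset.card T' := by omega
  obtain ⟨i, hi⟩ := Multiset.card_pos_iff_exists_mem.1 hpos
  have h6 : T' = Multiset.replicate n i := by
    rw [Multiset.eq_replicate]
    exact ⟨hc, fun b hb => h5 b hb i hi⟩
  have h7 : n ≤ T'.count i := by rw [h6, Multiset.count_replicate_self]
  have h8 := (Multiset.count_le_of_le i hT').trans (hS i)
  omega

/-- a length that is `1` or `-1` modulo `n` in the required range -/
lemma exists_length {n e : ℕ} (hn : n % 2 = 1) (hn3 : 3 ≤ n) :
    ∃ L : ℕ, 8 * 2 ^ e * (n - 1) + 1 ≤ L ∧ L ≤ 9 * 2 ^ e * (n - 1) ∧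
      ((L : ZMod n) = 1 ∨ (L : ZMod n) = -1) := by
  obtain ⟨m, rfl⟩ : ∃ m, n = m + 1 := ⟨n - 1, by omega⟩
  simp only [Nat.add_sub_cancel]
  set q := 2 ^ e with hq
  have hq1 : 1 ≤ q := Nat.one_le_two_pow
  have hm : m ≤ q * m := Nat.le_mul_of_pos_left m hq1
  have hm1 : (m : ZMod (m + 1)) = -1 := by
    have : ((m + 1 : ℕ) : ZMod (m + 1)) = 0 := ZMod.natCast_self (m + 1)
    push_cast at this
    exact eq_neg_of_add_eq_zero_left this
  by_cases h : (8 * q + 1) % (m + 1) = 0
  · -- then use `(8 q - 1) % n`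
    have h2 : (8 * q - 1) % (m + 1) = m - 1 := by
      obtain ⟨k, hk⟩ := Nat.dvd_of_mod_eq_zero h
      have hk1 : 1 ≤ k := by
        rcases Nat.eq_zero_or_pos k with h0 | h0
        · rw [h0] at hk; omega
        · exact h0
      obtain ⟨k', rfl⟩ : ∃ k', k = k' + 1 := ⟨k - 1, by omega⟩
      have h3 : 8 * q - 1 = (m - 1) + (m + 1) * k' := by
        have : (m + 1) * (k' + 1) = (m + 1) * k' + (m + 1) := by ring
        omega
      rw [h3, Nat.add_mul_mod_self_left, Nat.mod_eq_of_lt (by omega)]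
    refine ⟨8 * q * m + (m - 1), by omega, ?_, Or.inr ?_⟩
    · have : 9 * q * m = 8 * q * m + q * m := by ring
      omega
    · have h4 : ((8 * q - 1 : ℕ) : ZMod (m + 1)) = ((m - 1 : ℕ) : ZMod (m + 1)) := by
        rw [ZMod.natCast_eq_natCast_iff, Nat.ModEq, h2, Nat.mod_eq_of_lt (by omega)]
      rw [Nat.cast_sub (by omega)] at h4
      push_cast at h4 ⊢
      rw [← h4, hm1]
      ring
  · have h1 : (8 * q + 1) % (m + 1) < m + 1 := Nat.mod_lt _ (by omega)
    refine ⟨8 * q * m + (8 * q + 1) % (m + 1), by omega, ?_, Or.inl ?_⟩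
    · have : 9 * q * m = 8 * q * m + q * m := by ring
      omega
    · have h4 : (((8 * q + 1) % (m + 1) : ℕ) : ZMod (m + 1)) = ((8 * q + 1 : ℕ) : ZMod (m + 1)) := by
        rw [ZMod.natCast_eq_natCast_iff, Nat.ModEq, Nat.mod_mod]
      push_cast at h4 ⊢
      rw [h4, hm1]
      ring

/-- for odd `n ≥ 3` there is a zero-sum sequence over `(ℤ/n)^(e+3)` with at least
`2^(e+3) (n - 1) + 1` terms and without zero-sum subsequences of length `n` -/
lemma exists_seq {n e : ℕ} (hn : n % 2 = 1) (hn3 : 3 ≤ n) :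
    ∃ S : Multiset (Fin (e + 3) → ZMod n), S.sum = 0 ∧
      2 ^ (e + 3) * (n - 1) + 1 ≤ Multiset.card S ∧
      ∀ T ≤ S, Multiset.card T = n → T.sum ≠ 0 := by
  classical
  obtain ⟨L, hL1, hL2, hL3⟩ := exists_length (e := e) hn hn3
  set U : Multiset (Idx e) := (n - 1) • (Finset.univ : Finset (Idx e)).val with hU
  have hcard : Multiset.card U = 9 * 2 ^ e * (n - 1) := by
    rw [hU, Multiset.card_nsmul, Finset.card_val, Finset.card_univ, Fintype.card_prod,
      Fintype.card_fin, Fintype.card_fun, Fintype.card_fin, Fintype.card_fin]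
    simp [mul_comm]
  obtain ⟨S, hSU, hSL⟩ : ∃ S ≤ U, Multiset.card S = L := by
    have h1 : 0 < Multiset.card (Multiset.powersetCard L U) := by
      rw [Multiset.card_powersetCard, hcard]
      exact Nat.choose_pos hL2
    obtain ⟨S, hS⟩ := Multiset.card_pos_iff_exists_mem.1 h1
    exact ⟨S, (Multiset.mem_powersetCard.1 hS).1, (Multiset.mem_powersetCard.1 hS).2⟩
  have hcount : ∀ i, S.count i ≤ n - 1 := by
    intro i
    refine (Multiset.count_le_of_le i hSU).trans ?_
    rw [hU, Multiset.count_nsmul, Multiset.count_eq_one_of_mem Finset.univ.nodup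
      (Finset.mem_univ i), mul_one]
  obtain ⟨x, hx⟩ : ∃ x : Fin (e + 3) → ZMod n, (S.map (cvec n e)).sum + L • x = 0 := by
    have hsm : ∀ x : Fin (e + 3) → ZMod n, L • x = fun j => (L : ZMod n) * x j := by
      intro x; funext j; simp
    rcases hL3 with h | h
    · refine ⟨-(S.map (cvec n e)).sum, ?_⟩
      rw [hsm, h]
      funext j
      simp
    · refine ⟨(S.map (cvec n e)).sum, ?_⟩
      rw [hsm, h]
      funext j
      simp
  refine ⟨S.map fun i => cvec n e i + x, ?_, ?_, ?_⟩
  · rw [Multiset.sum_map_add, Multiset.map_const', Multiset.sum_replicate, hSL, hx]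
  · rw [Multiset.card_map, hSL]
    have : 2 ^ (e + 3) * (n - 1) = 8 * 2 ^ e * (n - 1) := by ring
    omega
  · exact fun T hT hc => no_zero_sum hn hn3 x S hcount T hT hc

/-- `s'_m((ℤ/n)^d)` is well defined for every multiple `m` of `n` -/
lemma nonempty_set (n m d : ℕ) (hn : 0 < n) (hnm : n ∣ m) :
    {L : ℕ | ∀ S : Multiset (Fin d → ZMod n), S.sum = 0 → L ≤ Multiset.card S →
      ∃ T ≤ S, Multiset.card T = m ∧ T.sum = 0}.Nonempty := by
  classical
  have : NeZero n := ⟨hn.ne'⟩
  refine ⟨Fintype.card (Fin d → ZMod n) * m + 1, fun S _ hS => ?_⟩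
  obtain ⟨g, hg⟩ : ∃ g, m ≤ S.count g := by
    by_contra hcon
    push Not at hcon
    have h1 : Multiset.card S = ∑ g : Fin d → ZMod n, S.count g := by
      rw [← Multiset.toFinset_sum_count_eq S]
      refine Finset.sum_subset (Finset.subset_univ _) fun g _ hg => ?_
      rw [Multiset.mem_toFinset] at hg
      exact Multiset.count_eq_zero.2 hg
    have h2 : ∑ g : Fin d → ZMod n, S.count g ≤ ∑ _g : Fin d → ZMod n, m :=
      Finset.sum_le_sum fun g _ => (hcon g).le
    rw [Finset.sum_const, Finset.card_univ, smul_eq_mul] at h2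
    omega
  refine ⟨Multiset.replicate m g, Multiset.le_count_iff_replicate_le.1 hg,
    Multiset.card_replicate _ _, ?_⟩
  rw [Multiset.sum_replicate]
  obtain ⟨k, rfl⟩ := hnm
  funext j
  simp

/-- **Theorem.** For every odd `n ≥ 3` and every `d ≥ 3` the bound
`s'_{nt}((ℤ/n)^d) ≤ (t + 2^d - 1) n - ℓ + 1` fails for `t = 1`; so it does not hold for all
positive integers `n`, `t`, `d`. -/
theorem result :
    (∀ n d : ℕ, Odd n → 3 ≤ n → 3 ≤ d →
      ((1 : ℤ) + 2 ^ d - 1) * n - ell n d + 1 < sPrime (n * 1) (Fin d → ZMod n)) ∧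
    ¬ ∀ n t d : ℕ, 0 < n → 0 < t → 0 < d →
      (sPrime (n * t) (Fin d → ZMod n) : ℤ) ≤ ((t : ℤ) + 2 ^ d - 1) * n - ell n d + 1 := by
  have main : ∀ n d : ℕ, Odd n → 3 ≤ n → 3 ≤ d →
      ((1 : ℤ) + 2 ^ d - 1) * n - ell n d + 1 < sPrime (n * 1) (Fin d → ZMod n) := by
    intro n d hodd hn3 hd
    obtain ⟨e, rfl⟩ : ∃ e, d = e + 3 := ⟨d - 3, by omega⟩
    have hn : n % 2 = 1 := Nat.odd_iff.1 hodd
    rw [mul_one]
    obtain ⟨S, hS0, hSc, hS⟩ := exists_seq (e := e) hn hn3
    have hmem : sPrime n (Fin (e + 3) → ZMod n) ∈ {L : ℕ | ∀ S : Multiset (Fin (e + 3) → ZMod n),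
        S.sum = 0 → L ≤ Multiset.card S → ∃ T ≤ S, Multiset.card T = n ∧ T.sum = 0} :=
      Nat.sInf_mem (nonempty_set n n (e + 3) (by omega) dvd_rfl)
    have h1 : Multiset.card S < sPrime n (Fin (e + 3) → ZMod n) := by
      by_contra hcon
      push Not at hcon
      obtain ⟨T, hT, hTc, hT0⟩ := hmem S hS0 hcon
      exact hS T hT hTc hT0
    have h2 := le_ell n (e + 3) (by omega)
    have h3 : ((2 ^ (e + 3) * (n - 1) + 1 : ℕ) : ℤ) < sPrime n (Fin (e + 3) → ZMod n) := by
      exact_mod_cast lt_of_le_of_lt hSc h1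
    have h4 : ((2 ^ (e + 3) : ℕ) : ℤ) ≤ ell n (e + 3) := by exact_mod_cast h2
    have h5 : ((n - 1 : ℕ) : ℤ) = (n : ℤ) - 1 := by
      rw [Nat.cast_sub (by omega)]; rfl
    push_cast at h3 h4
    rw [h5] at h3
    nlinarith
  refine ⟨main, fun hall => ?_⟩
  have h1 := main 3 3 (by decide) le_rfl le_rfl
  have h2 := hall 3 1 3 (by norm_num) (by norm_num) (by norm_num)
  push_cast at h1 h2
  linarith

end Pool.Agent.Results.MP_b34cfe_co.OddModuli
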